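import Mathlib

/-!
Project SL (helper818): necessity at the odd primes and at the real place, core.
-/

set_option autoImplicit false

namespace Pool.Agent.N482.SL

open PadicInt

section

variable {p : ℕ} [hp : Fact p.Prime]

theorem norm_unit {k : ℤ} (hk : ¬ (p : ℤ) ∣ k) : ‖(k : ℚ_[p])‖ = 1 :=
  le_antisymm (Padic.norm_int_le_one k) (not_lt.1 (mt Padic.norm_intCast_lt_one_iff.1 hk))

theorem norm_sqf {k : ℤ} (hs : Squarefree k) (hk : (p : ℤ) ∣ k) :
    ‖(k : ℚ_[p])‖ = (p : ℝ) ^ (-1 : ℤ) := by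
  obtain ⟨m, rfl⟩ := hk
  have hm : ¬ (p : ℤ) ∣ m := by
    rintro ⟨j, rfl⟩
    have h1 := hs (p : ℤ) ⟨j, by ring⟩
    have h2 := Int.isUnit_iff.1 h1
    have h3 := hp.out.one_lt
    omega
  push_cast
  rw [norm_mul, norm_unit hm, mul_one, Padic.norm_p, zpow_neg_one]

theorem par {z : ℚ_[p]} {m : ℤ} (h : ‖z‖ ^ 2 = (p : ℝ) ^ m) : Even m := by
  have hp1 : (1 : ℝ) < p := by exact_mod_cast hp.out.one_lt
  have hz : z ≠ 0 := by
    rintro rfl
    have h1 : (0 : ℝ) < (p : ℝ) ^ m := zpow_pos (by linarith) _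
    rw [← h] at h1
    simp at h1
  rw [Padic.norm_eq_zpow_neg_valuation hz, ← zpow_natCast, ← zpow_mul] at h
  have h1 := zpow_right_injective₀ (by linarith : (0 : ℝ) < p) hp1.ne' h
  refine ⟨-z.valuation, ?_⟩
  rw [← h1]
  push_cast
  ring

theorem norm_two (h2 : p ≠ 2) : ‖(2 : ℚ_[p])‖ = 1 := by
  have h3 : ¬ (p : ℤ) ∣ 2 := by
    intro h
    have h4 : p ∣ 2 := by exact_mod_cast h
    exact h2 ((Nat.prime_dvd_prime_iff_eq hp.out Nat.prime_two).1 h4)
  have h4 := norm_unit h3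
  exact_mod_cast h4

theorem toZMod_eq_zero {z : ℤ_[p]} : toZMod z = 0 ↔ ‖z‖ < 1 := by
  rw [← RingHom.mem_ker, ker_toZMod, IsLocalRing.mem_maximalIdeal, mem_nonunits]

theorem sq_near_one (h2 : p ≠ 2) {z : ℚ_[p]} (hz : ‖z - 1‖ < 1) :
    ∃ s : ℚ_[p], s ≠ 0 ∧ z = s ^ 2 := by
  have hz1 : ‖z‖ ≤ 1 := by
    have h3 : z = (z - 1) + 1 := by ring
    rw [h3]
    refine (Padic.nonarchimedean _ _).trans ?_
    simp [hz.le]
  obtain ⟨w, hw⟩ : ∃ w : ℤ_[p], (w : ℚ_[p]) = z := ⟨⟨z, hz1⟩, rfl⟩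
  have hw1 : ‖w - 1‖ < 1 := by
    rw [PadicInt.norm_def]
    push_cast
    rwa [hw]
  have h2u : ‖(2 : ℤ_[p])‖ = 1 := by
    rw [PadicInt.norm_def]
    push_cast
    exact norm_two h2
  have h := hensels_lemma (p := p) (R := ℤ_[p]) (F := Polynomial.X ^ 2 - Polynomial.C w)
    (a := 1) (by
      have e1 : (Polynomial.aeval (1 : ℤ_[p])) (Polynomial.X ^ 2 - Polynomial.C w) = 1 - w := by
        simp
      have e2 : (Polynomial.aeval (1 : ℤ_[p])) (Polynomial.derivative
          (Polynomial.X ^ 2 - Polynomial.C w)) = 2 := by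
        simp
        norm_num
      rw [e1, e2, h2u, norm_sub_rev]
      simpa using hw1)
  obtain ⟨s, hs, -⟩ := h
  have hs1 : s ^ 2 = w := by
    have h3 : s ^ 2 - w = 0 := by simpa using hs
    exact sub_eq_zero.1 h3
  refine ⟨(s : ℚ_[p]), ?_, ?_⟩
  · intro h0
    have h3 : s = 0 := PadicInt.coe_eq_zero.1 h0
    rw [h3] at hs1
    rw [← hs1] at hw1
    simp at hw1
  · rw [← hw, ← hs1]
    push_cast
    rfl

theorem norm_lt_of_le {x y : ℚ_[p]} {c : ℝ} (hx : ‖x‖ < c) (hy : ‖y‖ < c) : ‖x + y‖ < c :=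
  (Padic.nonarchimedean x y).trans_lt (max_lt hx hy)

theorem norm_int_le (k : ℤ) : ‖(k : ℚ_[p])‖ ≤ 1 := Padic.norm_int_le_one k

theorem core (h2 : p ≠ 2) (h7 : p ≠ 7) {D d : ℤ} (hD : Squarefree D) (hd : Squarefree d)
    {X Y r : ℚ_[p]} (hX : X ≠ 0) (h : Y ^ 2 = X ^ 3 + 84 * D * X ^ 2 + 1792 * D ^ 2 * X)
    (hr : X = d * r ^ 2) :
    IsSquare (d : ℚ_[p]) ∨ IsSquare (7 * (d : ℚ_[p])) ∨ (¬ (p : ℤ) ∣ D ∧ ¬ (p : ℤ) ∣ d) ∨
      ((p : ℤ) ∣ D ∧ (p : ℤ) ∣ d ∧ ∃ t₀ : ZMod p, t₀ ^ 2 = -7 ∧ ∀ D' d' : ℤ, D = p * D' →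
        d = p * d' → IsSquare (((D' * d' : ℤ) : ZMod p) * t₀)) := by
  have hD0 : (D : ℚ_[p]) ≠ 0 := by exact_mod_cast hD.ne_zero
  have hd0 : (d : ℚ_[p]) ≠ 0 := by exact_mod_cast hd.ne_zero
  have hr0 : r ≠ 0 := by
    rintro rfl
    apply hX
    rw [hr]
    ring
  have hp0 : (0 : ℝ) < p := by exact_mod_cast hp.out.pos
  obtain ⟨x, hx⟩ : ∃ x : ℚ_[p], X = D * x := ⟨X / D, by field_simp⟩
  have hx0 : x ≠ 0 := by
    rintro rfl
    exact hX (by rw [hx, mul_zero])
  have hY : Y ^ 2 = D ^ 3 * x * (x ^ 2 + 84 * x + 1792) := by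
    rw [h, hx]
    ring
  have h84 : ‖(84 : ℚ_[p])‖ ≤ 1 := by
    have := norm_int_le (p := p) 84
    exact_mod_cast this
  have h1792 : ‖(1792 : ℚ_[p])‖ = 1 := by
    have h3 : ¬ (p : ℤ) ∣ 1792 := by
      intro h4
      have h5 : p ∣ 2 ^ 8 * 7 := by
        have : (p : ℤ) ∣ ((2 ^ 8 * 7 : ℕ) : ℤ) := by
          norm_num
          exact h4
        exact_mod_cast this
      rcases (hp.out.dvd_mul).1 h5 with h6 | h6
      · exact h2 ((Nat.prime_dvd_prime_iff_eq hp.out Nat.prime_two).1 (hp.out.dvd_of_dvd_pow h6))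
      · exact h7 ((Nat.prime_dvd_prime_iff_eq hp.out (by norm_num)).1 h6)
    have h4 := norm_unit h3
    exact_mod_cast h4
  rcases lt_trichotomy ‖x‖ 1 with hlt | heq | hgt
  · -- small
    right
    left
    obtain ⟨s, hs0, hs⟩ := sq_near_one h2 (z := (x ^ 2 + 84 * x + 1792) / 1792) (by
      have h17 : (1792 : ℚ_[p]) ≠ 0 := by
        intro h0
        rw [h0, norm_zero] at h1792
        norm_num at h1792
      have e1 : (x ^ 2 + 84 * x + 1792) / 1792 - 1 = (x ^ 2 + 84 * x) / 1792 := by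
        field_simp
        ring
      rw [e1, norm_div, h1792, div_one]
      apply norm_lt_of_le
      · rw [norm_pow]
        have := norm_nonneg x
        nlinarith
      · rw [norm_mul]
        have := norm_nonneg x
        nlinarith)
    have h17 : (1792 : ℚ_[p]) ≠ 0 := by
      intro h0
      rw [h0, norm_zero] at h1792
      norm_num at h1792
    have e2 : x ^ 2 + 84 * x + 1792 = 1792 * s ^ 2 := by
      rw [div_eq_iff h17] at hs
      rw [hs]
      ring
    refine ⟨Y / (16 * D * s * r), ?_⟩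
    have e3 : Y ^ 2 = (16 * D * s * r) ^ 2 * (7 * d) := by
      rw [hY, e2]
      have e4 : (D : ℚ_[p]) * x = d * r ^ 2 := by rw [← hx, hr]
      calc (D : ℚ_[p]) ^ 3 * x * (1792 * s ^ 2) = 1792 * D ^ 2 * s ^ 2 * (D * x) := by ring
        _ = _ := by rw [e4]; ring
    have h16 : (16 : ℚ_[p]) ≠ 0 := by norm_num
    have e5 : (16 * (D : ℚ_[p]) * s * r) ≠ 0 :=
      mul_ne_zero (mul_ne_zero (mul_ne_zero h16 hD0) hs0) hr0
    field_simp
    rw [e3]
    ring
  · -- unit
    right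
    right
    have hXn : ‖(d : ℚ_[p])‖ * ‖r‖ ^ 2 = ‖(D : ℚ_[p])‖ := by
      rw [← norm_pow, ← norm_mul, ← hr, hx, norm_mul, heq, mul_one]
    by_cases hpD : (p : ℤ) ∣ D
    · right
      have hDn := norm_sqf hD hpD
      have hq1 : ‖x ^ 2 + 84 * x + 1792‖ < 1 := by
        refine lt_of_le_of_ne ?_ ?_
        · refine (Padic.nonarchimedean _ _).trans (max_le ((Padic.nonarchimedean _ _).trans
            (max_le ?_ ?_)) h1792.le)
          · rw [norm_pow, heq, one_pow]
          · rw [norm_mul, heq, mul_one]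
            exact h84
        · intro h3
          have h4 : ‖Y‖ ^ 2 = (p : ℝ) ^ (-3 : ℤ) := by
            rw [← norm_pow, hY, norm_mul, norm_mul, norm_pow, hDn, heq, h3, mul_one, mul_one,
              ← zpow_natCast, ← zpow_mul]
            norm_num
          have h5 := par h4
          exact absurd h5 (by decide)
      have hpd : (p : ℤ) ∣ d := by
        by_contra hc
        rw [norm_unit hc, one_mul, hDn] at hXn
        exact absurd (par hXn) (by decide)
      refine ⟨hpD, hpd, ?_⟩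
      have hdn := norm_sqf hd hpd
      have hrn : ‖r‖ = 1 := by
        rw [hdn, hDn] at hXn
        have h3 : ‖r‖ ^ 2 = 1 := by
          have h4 : (p : ℝ) ^ (-1 : ℤ) ≠ 0 := (zpow_pos hp0 _).ne'
          exact mul_left_cancel₀ h4 (by rw [hXn, mul_one])
        exact (pow_eq_one_iff_of_nonneg (norm_nonneg r) two_ne_zero).1 h3
      obtain ⟨x', hx'⟩ : ∃ w : ℤ_[p], (w : ℚ_[p]) = x := ⟨⟨x, heq.le⟩, rfl⟩
      obtain ⟨r', hr'⟩ : ∃ w : ℤ_[p], (w : ℚ_[p]) = r := ⟨⟨r, hrn.le⟩, rfl⟩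
      have hq : toZMod x' ^ 2 + 84 * toZMod x' + 1792 = 0 := by
        have h3 : toZMod (x' ^ 2 + 84 * x' + 1792) = 0 := by
          rw [toZMod_eq_zero, PadicInt.norm_def]
          push_cast
          rw [hx']
          exact hq1
        have e84 : toZMod (84 : ℤ_[p]) = 84 := map_ofNat _ 84
        have e17 : toZMod (1792 : ℤ_[p]) = 1792 := map_ofNat _ 1792
        rw [map_add, map_add, map_mul, map_pow, e84, e17] at h3
        exact h3
      have h2z : (2 : ZMod p) ≠ 0 := by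
        intro h0
        have h3 : ((2 : ℕ) : ZMod p) = 0 := by exact_mod_cast h0
        rw [ZMod.natCast_eq_zero_iff] at h3
        exact h2 ((Nat.prime_dvd_prime_iff_eq hp.out Nat.prime_two).1 h3)
      obtain ⟨t, ht⟩ : ∃ t : ZMod p, toZMod x' + 42 = 2 * t :=
        ⟨(toZMod x' + 42) / 2, by field_simp⟩
      have hx0' : toZMod x' = 2 * t - 42 := by rw [← ht]; ring
      have ht7 : t ^ 2 = -7 := by
        rw [hx0'] at hq
        have h3 : (2 : ZMod p) ^ 2 * (t ^ 2 + 7) = 0 := by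
          rw [← hq]
          ring
        have h4 := (mul_eq_zero.1 h3).resolve_left (pow_ne_zero 2 h2z)
        exact eq_neg_of_add_eq_zero_left h4
      refine ⟨t, ht7, ?_⟩
      intro D' d' hD' hd'
      have h3 : ((D' : ℤ) : ZMod p) * toZMod x' = (d' : ZMod p) * toZMod r' ^ 2 := by
        have h4 : (D' : ℤ_[p]) * x' = d' * r' ^ 2 := by
          have h5 : (D : ℚ_[p]) * x = d * r ^ 2 := by rw [← hx, hr]
          rw [hD', hd', ← hx', ← hr'] at h5
          push_cast at h5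
          have hp0' : (p : ℚ_[p]) ≠ 0 := by exact_mod_cast hp.out.ne_zero
          have h6 : (D' : ℚ_[p]) * x' = d' * (r' : ℚ_[p]) ^ 2 := by
            apply mul_left_cancel₀ hp0'
            linear_combination h5
          apply PadicInt.ext
          push_cast
          exact h6
        have h5 := congrArg toZMod h4
        simpa using h5
      have h3t : (3 : ZMod p) + t ≠ 0 := by
        intro h0
        have h4 : t = -3 := by linear_combination h0
        rw [h4] at ht7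
        have h5 : (2 : ZMod p) ^ 4 = 0 := by linear_combination ht7
        exact h2z (pow_eq_zero_iff (by norm_num) |>.1 h5)
      refine ⟨(d' : ZMod p) * toZMod r' / (3 + t), ?_⟩
      rw [hx0'] at h3
      have h4 : (2 * t - 42 : ZMod p) = t * (3 + t) ^ 2 := by
        linear_combination (-(t : ZMod p) - 6) * ht7
      rw [h4] at h3
      push_cast
      field_simp
      linear_combination (d' : ZMod p) * h3
    · left
      refine ⟨hpD, ?_⟩
      intro hpd
      rw [norm_sqf hd hpd, norm_unit hpD] at hXn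
      have h3 : ‖r‖ ^ 2 = (p : ℝ) ^ (1 : ℤ) := by
        rw [zpow_neg_one] at hXn
        rw [zpow_one]
        field_simp at hXn
        exact hXn
      exact absurd (par h3) (by decide)
  · -- large
    left
    obtain ⟨s, hs0, hs⟩ := sq_near_one h2 (z := (x ^ 2 + 84 * x + 1792) / x ^ 2) (by
      have e1 : (x ^ 2 + 84 * x + 1792) / x ^ 2 - 1 = 84 / x + 1792 / x ^ 2 := by
        field_simp
        ring
      rw [e1]
      have hx1 : 0 < ‖x‖ := by linarith
      apply norm_lt_of_le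
      · rw [norm_div, div_lt_one hx1]
        linarith
      · rw [norm_div, norm_pow, h1792, div_lt_one (by positivity)]
        nlinarith)
    have e2 : x ^ 2 + 84 * x + 1792 = x ^ 2 * s ^ 2 := by
      rw [div_eq_iff (pow_ne_zero 2 hx0)] at hs
      rw [hs]
      ring
    refine ⟨Y / (X * s * r), ?_⟩
    have e3 : Y ^ 2 = (X * s * r) ^ 2 * d := by
      rw [hY, e2]
      calc (D : ℚ_[p]) ^ 3 * x * (x ^ 2 * s ^ 2) = (D * x) ^ 2 * s ^ 2 * (D * x) := by ring
        _ = X ^ 2 * s ^ 2 * X := by rw [← hx]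
        _ = X ^ 2 * s ^ 2 * (d * r ^ 2) := by rw [← hr]
        _ = _ := by ring
    field_simp
    rw [e3]
    ring

end

end Pool.Agent.N482.SL
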